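import Mathlib

namespace Pool.Agent.Results.MP_61ae3e_pr.NotMono

open scoped ENNReal NNReal

open Classical in
noncomputable def settle {V : Type} [Fintype V] (G : SimpleGraph V) (X : V → ℕ) : ℕ → V → PMF V
  | 0, v => PMF.pure v
  | k + 1, v =>
    if h : (Finset.univ.filter fun u =>
        G.Adj v u ∧ X u < X v ∧ ∀ w, G.Adj v w → X u ≤ X w).Nonempty then
      (PMF.uniformOfFinset _ h).bind (settle G X k)
    else PMF.pure v

open Classical in
noncomputable def loads {V : Type} [Fintype V] [Nonempty V] (G : SimpleGraph V) : ℕ → PMF (V → ℕ)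
  | 0 => PMF.pure 0
  | m + 1 => (loads G m).bind fun X => (PMF.uniformOfFintype V).bind fun v =>
      (settle G X (X v) v).map fun w => Function.update X w (X w + 1)

noncomputable def ex {α : Type} (p : PMF α) (f : α → ℚ≥0) : ℝ≥0∞ :=
  ∑' a, p a * ((f a : ℝ≥0) : ℝ≥0∞)

lemma ex_bind {α β : Type} (p : PMF α) (g : α → PMF β) (f : β → ℚ≥0) (f' : α → ℚ≥0)
    (h : ∀ a, ex (g a) f = ((f' a : ℝ≥0) : ℝ≥0∞)) : ex (p.bind g) f = ex p f' := by
  simp only [ex, ← h, PMF.bind_apply, ← ENNReal.tsum_mul_right, ← ENNReal.tsum_mul_left, mul_assoc]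
  exact ENNReal.tsum_comm

lemma ex_pure {α : Type} (a : α) (f : α → ℚ≥0) : ex (PMF.pure a) f = ((f a : ℝ≥0) : ℝ≥0∞) := by
  rw [ex, tsum_eq_single a fun b hb => by simp [hb]]
  simp

lemma ex_unif {α : Type} (s t : Finset α) (h : s.Nonempty) (e : s = t) (f : α → ℚ≥0) :
    ex (PMF.uniformOfFinset s h) f = ((((∑ a ∈ t, f a) / t.card : ℚ≥0) : ℝ≥0) : ℝ≥0∞) := by
  subst e
  rw [ex, tsum_eq_sum (s := s) fun b hb => by simp [hb],
    Finset.sum_congr rfl fun a ha => by rw [PMF.uniformOfFinset_apply_of_mem h ha],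
    ← Finset.mul_sum, NNRat.cast_div, ENNReal.coe_div (by simpa using h.ne_empty), mul_comm,
    NNRat.cast_sum, ENNReal.coe_finset_sum]
  simp [div_eq_mul_inv]

def st (G : SimpleGraph (Fin 5)) [DecidableRel G.Adj] (X : Fin 5 → ℕ) (f : Fin 5 → ℚ≥0) :
    ℕ → Fin 5 → ℚ≥0
  | 0, v => f v
  | k + 1, v =>
    let t := Finset.univ.filter fun u => G.Adj v u ∧ X u < X v ∧ ∀ w, G.Adj v w → X u ≤ X w
    if t.card = 0 then f v else (∑ a ∈ t, st G X f k a) / t.card

def va (G : SimpleGraph (Fin 5)) [DecidableRel G.Adj] : ℕ → ((Fin 5 → ℕ) → ℚ≥0) → ℚ≥0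
  | 0, f => f 0
  | m + 1, f => va G m fun X => (∑ v ∈ Finset.univ,
      st G X (fun w => f (Function.update X w (X w + 1))) (X v) v) / (Finset.univ : Finset (Fin 5)).card

lemma ex_settle (G : SimpleGraph (Fin 5)) [DecidableRel G.Adj] (X : Fin 5 → ℕ) (f : Fin 5 → ℚ≥0)
    (k : ℕ) : ∀ v, ex (settle G X k v) f = ((st G X f k v : ℝ≥0) : ℝ≥0∞) := by
  induction k with
  | zero => exact fun v => ex_pure v f
  | succ k ih =>
    intro v
    rw [settle, st]
    split_ifs with h1 h2 h2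
    · obtain ⟨u, hu⟩ := h1
      rw [Finset.card_eq_zero, Finset.filter_eq_empty_iff] at h2
      exact absurd (by simpa using hu) (h2 (Finset.mem_univ u))
    · rw [ex_bind _ _ _ _ ih]
      exact ex_unif _ _ _ (by ext; simp) _
    · exact ex_pure v f
    · obtain ⟨u, hu⟩ := Finset.card_ne_zero.mp h2
      exact absurd ⟨u, by simpa using hu⟩ h1

lemma ex_loads (G : SimpleGraph (Fin 5)) [DecidableRel G.Adj] (m : ℕ) :
    ∀ f, ex (loads G m) f = ((va G m f : ℝ≥0) : ℝ≥0∞) := by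
  induction m with
  | zero => exact fun f => ex_pure _ f
  | succ m ih =>
    intro f
    rw [loads, va, ← ih]
    refine ex_bind _ _ _ _ fun X => ?_
    rw [ex_bind _ _ _ (fun v => st G X (fun w => f (Function.update X w (X w + 1))) (X v) v)]
    · exact ex_unif _ _ _ rfl _
    · intro v
      rw [← PMF.bind_pure_comp, ← ex_settle]
      refine ex_bind _ _ _ _ fun w => ?_
      rw [Function.comp_apply, ex_pure]
      congr 4
      exact Subsingleton.elim _ _

lemma meas (p : PMF (Fin 5 → ℕ)) : p.toMeasure {X | 2 ≤ Finset.univ.sup X} =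
    ex p fun X => if 2 ≤ Finset.univ.sup X then 1 else 0 := by
  rw [PMF.toMeasure_apply _ (Set.to_countable _).measurableSet, ex]
  congr 1
  ext X
  by_cases h : 2 ≤ Finset.univ.sup X
  · rw [if_pos h, Set.indicator_of_mem (by exact h)]
    simp
  · rw [if_neg h, Set.indicator_of_notMem (by exact h)]
    simp

def G1 : SimpleGraph (Fin 5) where
  Adj i j := (i.val < 3 ∧ 3 ≤ j.val) ∨ (j.val < 3 ∧ 3 ≤ i.val)
  symm := ⟨by decide +kernel⟩
  loopless := ⟨by decide +kernel⟩

def G2 : SimpleGraph (Fin 5) where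
  Adj i j := i ≠ j ∧ (3 ≤ j.val ∨ 3 ≤ i.val)
  symm := ⟨by decide +kernel⟩
  loopless := ⟨by decide +kernel⟩

instance : DecidableRel G1.Adj := fun i j => by unfold G1; infer_instance
instance : DecidableRel G2.Adj := fun i j => by unfold G2; infer_instance

theorem result : ∃ (n : ℕ) (G G' : SimpleGraph (Fin (n + 1))) (m l : ℕ), G ≤ G' ∧ G.Connected ∧
    (loads G m).toMeasure {X | l ≤ Finset.univ.sup X} <
      (loads G' m).toMeasure {X | l ≤ Finset.univ.sup X} := by
  refine ⟨4, G1, G2, 4, 2, ?_, by decide +kernel, ?_⟩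
  · have : ∀ i j, G1.Adj i j → G2.Adj i j := by decide +kernel
    exact fun i j => this i j
  rw [meas, meas, ex_loads, ex_loads, ENNReal.coe_lt_coe, NNRat.cast_lt]
  decide +kernel

end Pool.Agent.Results.MP_61ae3e_pr.NotMono
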